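import Pool.Agent.H.MP_fdf3ca_an.C

set_option autoImplicit false
open Set Filter Topology Metric MeasureTheory

namespace Pool.Agent.Results.MP_fdf3ca_an.Bergman

open Pool.Agent.H.MP_fdf3ca_an

/-- The weighted area integral over the unit disc. -/
noncomputable def N (p α : ℝ) (f : ℂ → ℂ) : ENNReal :=
  ∫⁻ z in ball (0 : ℂ) 1, ENNReal.ofReal (‖f z‖ ^ p * (1 - ‖z‖) ^ α)

/-- The weighted Bergman space, functions being extended by zero outside the disc. -/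
def Berg (p α : ℝ) (f : ℂ → ℂ) : Prop :=
  DifferentiableOn ℂ f (ball 0 1) ∧ (∀ z ∉ ball (0 : ℂ) 1, f z = 0) ∧ N p α f < ⊤

/-- Strongly annular functions. -/
def SA (f : ℂ → ℂ) : Prop :=
  ∀ R : ℝ, ∃ᶠ r in 𝓝[<] (1 : ℝ), ∀ z : ℂ, ‖z‖ = r → R ≤ ‖f z‖

theorem N_add {p α : ℝ} (hp : 0 < p) {f g : ℂ → ℂ} (hf : DifferentiableOn ℂ f (ball 0 1))
    (f1 : N p α f < ⊤) (g1 : N p α g < ⊤) : N p α (f + g) < ⊤ := by
  have am : AEMeasurable (fun z : ℂ => ENNReal.ofReal (‖f z‖ ^ p * (1 - ‖z‖) ^ α))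
      (volume.restrict (ball 0 1)) :=
    (((hf.continuousOn.aemeasurable measurableSet_ball).norm.pow_const p).mul
      ((measurable_const.sub measurable_norm).pow_const α).aemeasurable).ennreal_ofReal
  refine lt_of_le_of_lt (b := ENNReal.ofReal (2 ^ p) * (N p α f + N p α g)) ?_
    (ENNReal.mul_lt_top ENNReal.ofReal_lt_top (ENNReal.add_lt_top.2 ⟨f1, g1⟩))
  rw [N, N, N, ← lintegral_add_left' am, ← lintegral_const_mul' _ _ ENNReal.ofReal_ne_top]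
  refine setLIntegral_mono' measurableSet_ball fun z hz => ?_
  have d0 : 0 < 1 - ‖z‖ := sub_pos.2 (by simpa using hz)
  rw [← ENNReal.ofReal_add (by positivity) (by positivity), ← ENNReal.ofReal_mul (by positivity),
    ← add_mul, ← mul_assoc]
  refine ENNReal.ofReal_le_ofReal (mul_le_mul_of_nonneg_right ?_ (by positivity))
  have a : 0 ≤ ‖f z‖ ^ p := by positivity
  have b : 0 ≤ ‖g z‖ ^ p := by positivity
  have c : (0 : ℝ) ≤ 2 ^ p := by positivity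
  have s := norm_add_le (f z) (g z)
  rcases le_total ‖f z‖ ‖g z‖ with h | h
  · refine (Real.rpow_le_rpow (y := 2 * ‖g z‖) (norm_nonneg _) (s.trans (by linarith)) hp.le).trans ?_
    rw [Real.mul_rpow (by norm_num) (norm_nonneg _)]
    nlinarith
  · refine (Real.rpow_le_rpow (y := 2 * ‖f z‖) (norm_nonneg _) (s.trans (by linarith)) hp.le).trans ?_
    rw [Real.mul_rpow (by norm_num) (norm_nonneg _)]
    nlinarith

theorem N_smul {p α : ℝ} (c : ℂ) {f : ℂ → ℂ} (f1 : N p α f < ⊤) : N p α (c • f) < ⊤ := by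
  refine lt_of_eq_of_lt (b := ENNReal.ofReal (‖c‖ ^ p) * N p α f) ?_
    (ENNReal.mul_lt_top ENNReal.ofReal_lt_top f1)
  rw [N, N, ← lintegral_const_mul' _ _ ENNReal.ofReal_ne_top]
  refine lintegral_congr fun z => ?_
  rw [← ENNReal.ofReal_mul (by positivity), Pi.smul_apply, norm_smul,
    Real.mul_rpow (norm_nonneg _) (norm_nonneg _), mul_assoc]

theorem result (p α : ℝ) (hp : 0 < p) (hα : -1 < α) :
    ∃ M : Submodule ℂ (ℂ → ℂ), ¬ Module.Finite ℂ M ∧ (∀ f ∈ M, Berg p α f) ∧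
    (∀ (u : ℕ → ℂ → ℂ) (f : ℂ → ℂ), (∀ k, u k ∈ M) → Berg p α f →
      Tendsto (fun k => N p α (u k - f)) atTop (𝓝 0) → f ∈ M) ∧
    ∀ f ∈ M, f ≠ 0 → SA f := by
  obtain ⟨γ, g0, g1, g2⟩ : ∃ γ : ℝ, 0 < γ ∧ γ ≤ 1 ∧ -1 < -γ * p + α := by
    refine ⟨min 1 ((α + 1) / (2 * p)), lt_min one_pos (div_pos (by linarith) (by positivity)),
      min_le_left _ _, ?_⟩
    have h1 := mul_le_mul_of_nonneg_right (min_le_right 1 ((α + 1) / (2 * p))) hp.le
    have h2 : (α + 1) / (2 * p) * p = (α + 1) / 2 := by field_simp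
    linarith
  obtain ⟨Q, Q1, Q2⟩ : ∃ Q : ℕ, 64 ≤ (Q : ℝ) ^ γ ∧ 8 ≤ Q :=
    ((((tendsto_rpow_atTop g0).comp tendsto_natCast_atTop_atTop).eventually_ge_atTop 64).and
      (eventually_ge_atTop 8)).exists
  let M : Submodule ℂ (ℂ → ℂ) :=
    { carrier := {f | f ∈ V Q ∧ N p α f < ⊤}
      add_mem' := fun hf hg => ⟨add_mem hf.1 hg.1, N_add hp hf.1.1 hf.2 hg.2⟩
      zero_mem' := ⟨zero_mem _, by simp [N, hp.ne']⟩
      smul_mem' := fun c _ hf => ⟨(V Q).smul_mem c hf.1, N_smul c hf.2⟩ }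
  refine ⟨M, ?_, fun f hf => ⟨hf.1.1, hf.1.2.1, hf.2⟩, fun u f hu hf h =>
    ⟨V_closed _ u f (fun k => (hu k).1) hf.1 hf.2.1
      (locu hp u f (fun k => (hu k).1.1) hf.1 h), hf.2.2⟩, fun f hf h0 => V_annular Q2 hf.1 h0⟩
  choose f h1 h2 h3 using fun j : ℕ => gen g0 g1 Q1 (by omega)
    (Pi.single j 1) fun i => by
      rw [Pi.single_apply]
      split_ifs <;> simp
  exact indep M f (fun j => ⟨h1 j, fin hp g2 _ (h3 j)⟩) h1 h2

end Pool.Agent.Results.MP_fdf3ca_an.Bergman
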