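import Pool.Agent.H.MP_fdf3ca_an.B

set_option autoImplicit false
open Set Filter Topology Metric

namespace Pool.Agent.Results.MP_fdf3ca_an.Spaceable

open Pool.Agent.H.MP_fdf3ca_an

/-- Holomorphic functions on the unit disc, extended by zero outside it. -/
def Hol (f : ℂ → ℂ) : Prop :=
  DifferentiableOn ℂ f (ball 0 1) ∧ ∀ z ∉ ball (0 : ℂ) 1, f z = 0

/-- Strongly annular functions. -/
def SA (f : ℂ → ℂ) : Prop :=
  ∀ R : ℝ, ∃ᶠ r in 𝓝[<] (1 : ℝ), ∀ z : ℂ, ‖z‖ = r → R ≤ ‖f z‖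

theorem result : ∃ M : Submodule ℂ (ℂ → ℂ), ¬ Module.Finite ℂ M ∧ (∀ f ∈ M, Hol f) ∧
    (∀ (u : ℕ → ℂ → ℂ) (f : ℂ → ℂ), (∀ k, u k ∈ M) → Hol f →
      TendstoLocallyUniformlyOn u f atTop (ball 0 1) → f ∈ M) ∧
    ∀ f ∈ M, f ≠ 0 → SA f := by
  refine ⟨V 64, ?_, fun f hf => ⟨hf.1, hf.2.1⟩, fun u f hu hf h => V_closed _ u f hu hf.1 hf.2 h,
    fun f hf h0 => V_annular (by norm_num) hf h0⟩
  choose f h1 h2 _ using fun j : ℕ => gen (Q := 64) one_pos le_rfl (by norm_num) (by norm_num)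
    (Pi.single j 1) fun i => by
      rw [Pi.single_apply]
      split_ifs <;> simp
  exact indep _ f h1 h1 h2

end Pool.Agent.Results.MP_fdf3ca_an.Spaceable
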